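import Pool.Agent.Helper45.LGB.St

/-!
# Project LGB, module PRM: a symmetrised product, ordered by the position of one factor
-/

set_option autoImplicit false

namespace Pool.Agent.Helper72.LGB

open scoped BigOperators
open Pool.Agent.Helper45.LGB

/-- the permutation of `Fin (m + 1)` with `σ j = 0`, `σ (j.succAbove i) = (τ i).succ` -/
private def per {m : ℕ} (a : Fin (m + 1) × Equiv.Perm (Fin m)) : Equiv.Perm (Fin (m + 1)) :=
  ((finSuccEquiv' a.1).trans (Equiv.optionCongr a.2)).trans (finSuccEquiv' 0).symm

private theorem per_self {m : ℕ} (j : Fin (m + 1)) (τ : Equiv.Perm (Fin m)) : per (j, τ) j = 0 := by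
  simp [per]

private theorem per_succAbove {m : ℕ} (j : Fin (m + 1)) (τ : Equiv.Perm (Fin m)) (i : Fin m) :
    per (j, τ) (j.succAbove i) = (τ i).succ := by
  simp [per]

private theorem per_inj {m : ℕ} : Function.Injective (per (m := m)) := by
  rintro ⟨j, τ⟩ ⟨j', τ'⟩ h
  have h1 : j = j' := by
    have e : per (j', τ') j = 0 := by rw [← h]; exact per_self j τ
    exact (per (j', τ')).injective (e.trans (per_self j' τ').symm)
  subst h1
  have h2 : τ = τ' := by
    ext i
    have e : per (j, τ) (j.succAbove i) = per (j, τ') (j.succAbove i) := by rw [h]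
    rw [per_succAbove, per_succAbove] at e
    exact congrArg Fin.val (Fin.succ_injective _ e)
  rw [h2]

private theorem per_bij {m : ℕ} : Function.Bijective (per (m := m)) := by
  rw [Fintype.bijective_iff_injective_and_card]
  refine ⟨per_inj, ?_⟩
  rw [Fintype.card_prod, Fintype.card_perm, Fintype.card_perm, Fintype.card_fin, Fintype.card_fin, Nat.factorial_succ]

private theorem cons_per {A : Type} {m : ℕ} (x : A) (d : Fin m → A) (j : Fin (m + 1)) (τ : Equiv.Perm (Fin m)) :
    (fun i => (Fin.cons x d : Fin (m + 1) → A) (per (j, τ) i)) = j.insertNth x (fun i => d (τ i)) := by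
  funext i
  rcases Fin.eq_self_or_eq_succAbove j i with h | ⟨k, h⟩
  · subst h
    rw [per_self, Fin.insertNth_apply_same, Fin.cons_zero]
  · subst h
    rw [per_succAbove, Fin.insertNth_apply_succAbove, Fin.cons_succ]

private theorem ofFn_ins {A : Type} {m : ℕ} (x : A) (f : Fin m → A) (j : Fin (m + 1)) :
    List.ofFn (j.insertNth x f : Fin (m + 1) → A) = (List.ofFn f).take j ++ x :: (List.ofFn f).drop j := by
  have hj := j.isLt
  apply List.ext_getElem
  · simp only [List.length_ofFn, List.length_append, List.length_cons, List.length_take, List.length_drop]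
    omega
  · intro k h1 h2
    rw [List.length_ofFn] at h1
    rw [List.getElem_ofFn]
    rcases lt_trichotomy k (j : ℕ) with h | h | h
    · have e : (⟨k, h1⟩ : Fin (m + 1)) = j.succAbove ⟨k, by omega⟩ := by
        rw [Fin.succAbove_of_castSucc_lt _ _ (by rw [Fin.lt_def]; exact h)]
        rfl
      rw [e, Fin.insertNth_apply_succAbove, List.getElem_append_left (by rw [List.length_take, List.length_ofFn]; omega),
        List.getElem_take, List.getElem_ofFn]
    · have e : (⟨k, h1⟩ : Fin (m + 1)) = j := Fin.ext h
      have hl : ((List.ofFn f).take (j : ℕ)).length = k := by rw [List.length_take, List.length_ofFn]; omega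
      rw [e, Fin.insertNth_apply_same, List.getElem_append_right (by omega)]
      simp only [hl, Nat.sub_self, List.getElem_cons_zero]
    · obtain ⟨k', rfl⟩ : ∃ k', k = k' + 1 := ⟨k - 1, by omega⟩
      have e : (⟨k' + 1, h1⟩ : Fin (m + 1)) = j.succAbove ⟨k', by omega⟩ := by
        rw [Fin.succAbove_of_le_castSucc _ _ (by rw [Fin.le_def]; simp only [Fin.val_castSucc]; omega)]
        rfl
      have hl : ((List.ofFn f).take (j : ℕ)).length = (j : ℕ) := by rw [List.length_take, List.length_ofFn]; omega
      have hs : k' + 1 - (j : ℕ) = (k' - j) + 1 := by omega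
      rw [e, Fin.insertNth_apply_succAbove, List.getElem_append_right (by omega)]
      simp only [hl, hs, List.getElem_cons_succ, List.getElem_drop, List.getElem_ofFn]
      congr 1
      apply Fin.ext
      simp only
      omega

theorem hPRM : StPRM := by
  intro A _ m x d
  rw [← Fintype.sum_bijective per per_bij (fun a => (List.ofFn fun i => (Fin.cons x d : Fin (m + 1) → A) (per a i)).prod) _
    (fun a => rfl), Fintype.sum_prod_type, Finset.sum_range]
  refine Finset.sum_congr rfl fun j _ => Finset.sum_congr rfl fun τ _ => ?_
  rw [cons_per, ofFn_ins, List.prod_append, List.prod_cons, mul_assoc]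

end Pool.Agent.Helper72.LGB
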